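import Mathlib

namespace Pool.Agent.Results.MP_56c58d_co.ClassPFails

set_option linter.unusedSimpArgs false
set_option linter.unusedVariables false

/-! ## Definitions used by the statement

A morphism of the free monoid `A*` is given by the images `φ a` of the letters; the image of the
word `w` is `w.flatMap φ`. -/

/-- The image of the word `w` under the `k`-th power of the morphism `φ`. -/
def iter {A : Type} (φ : A → List A) (k : ℕ) (w : List A) : List A :=
  (fun w : List A => w.flatMap φ)^[k] w

/-- `φ` is primitive: some power of `φ` maps every letter to a word in which all letters occur. -/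
def Primitive {A : Type} (φ : A → List A) : Prop :=
  ∃ k : ℕ, 1 ≤ k ∧ ∀ a b : A, b ∈ iter φ k [a]

/-- The first `n` letters of the infinite word `u`. -/
def pre {A : Type} (u : ℕ → A) (n : ℕ) : List A := (List.range n).map u

/-- `φ(u) = u`: the image of every finite beginning of `u` is a beginning of `u`. -/
def IsFixedPoint {A : Type} (φ : A → List A) (u : ℕ → A) : Prop :=
  ∀ n : ℕ, (pre u n).flatMap φ = pre u ((pre u n).flatMap φ).length

/-- The set of all finite factors of `u`. -/
def Language {A : Type} (u : ℕ → A) : Set (List A) := {w | ∃ n : ℕ, w <:+: pre u n}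

/-- `w` equals its reversal. -/
def IsPalindrome {A : Type} (w : List A) : Prop := w.reverse = w

/-- Class `P` of Hof, Knill and Simon. -/
def ClassP {A : Type} (φ : A → List A) : Prop :=
  Primitive φ ∧ ∃ (p : List A) (q : A → List A),
    IsPalindrome p ∧ (∀ a, IsPalindrome (q a)) ∧ ∀ a, φ a = p ++ q a

/-! ## The Fibonacci language

The letter `X` is `false` and the letter `Y` is `true`. -/

/-- The Fibonacci morphism `X ↦ XY`, `Y ↦ X`. -/
def G : Bool → List Bool
  | false => [false, true]
  | true => [false]

/-- The finite Fibonacci words. -/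
def Gn (n : ℕ) : List Bool := iter G n [false]

theorem iter_zero {A : Type} (φ : A → List A) (w : List A) : iter φ 0 w = w := rfl

theorem iter_succ {A : Type} (φ : A → List A) (k : ℕ) (w : List A) :
    iter φ (k + 1) w = (iter φ k w).flatMap φ := by
  unfold iter
  rw [Function.iterate_succ_apply']

theorem iter_succ' {A : Type} (φ : A → List A) (k : ℕ) (w : List A) :
    iter φ (k + 1) w = iter φ k (w.flatMap φ) := by
  unfold iter
  rw [Function.iterate_succ_apply]

theorem iter_add {A : Type} (φ : A → List A) (j k : ℕ) (w : List A) :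
    iter φ (j + k) w = iter φ j (iter φ k w) := by
  unfold iter
  rw [Function.iterate_add_apply]

theorem iter_append {A : Type} (φ : A → List A) (k : ℕ) (w z : List A) :
    iter φ k (w ++ z) = iter φ k w ++ iter φ k z := by
  induction k generalizing w z with
  | zero => rfl
  | succ k ih => rw [iter_succ', iter_succ', iter_succ', List.flatMap_append, ih]

theorem iter_nil {A : Type} (φ : A → List A) (k : ℕ) : iter φ k [] = [] := by
  induction k with
  | zero => rfl
  | succ k ih => rw [iter_succ']; exact ih

theorem iter_eq_flatMap {A : Type} (φ : A → List A) (k : ℕ) (w : List A) :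
    iter φ k w = w.flatMap (fun a => iter φ k [a]) := by
  induction w with
  | nil => rw [iter_nil]; rfl
  | cons a w ih =>
    rw [← List.singleton_append, iter_append, List.flatMap_append, ih]
    simp

theorem iter_isInfix {A : Type} (φ : A → List A) (k : ℕ) {w z : List A} (h : w <:+: z) :
    iter φ k w <:+: iter φ k z := by
  obtain ⟨s, t, rfl⟩ := h
  rw [iter_append, iter_append]
  exact ⟨_, _, rfl⟩

theorem flatMap_isInfix {A B : Type} (φ : A → List B) {w z : List A} (h : w <:+: z) :
    w.flatMap φ <:+: z.flatMap φ := by
  obtain ⟨s, t, rfl⟩ := h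
  rw [List.flatMap_append, List.flatMap_append]
  exact ⟨_, _, rfl⟩

/-- The Fibonacci language. -/
def LF (w : List Bool) : Prop := ∃ n, w <:+: Gn n

theorem LF.mono {w z : List Bool} (hz : LF z) (h : w <:+: z) : LF w := by
  obtain ⟨n, hn⟩ := hz
  exact ⟨n, h.trans hn⟩

theorem LF_Gn (n : ℕ) : LF (Gn n) := ⟨n, List.infix_rfl⟩

theorem Gn_succ (n : ℕ) : Gn (n + 1) = (Gn n).flatMap G := iter_succ _ _ _

theorem Gn_twice (n : ℕ) : Gn n ++ Gn n <:+: Gn (n + 3) := by
  have h : [false] ++ [false] <:+: iter G 3 [false] := ⟨[false, true], [true], by decide⟩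
  have := iter_isInfix G n h
  rw [iter_append] at this
  unfold Gn
  rw [iter_add]
  exact this

theorem Gn_ne_nil (n : ℕ) : Gn n ≠ [] := by
  induction n with
  | zero => simp [Gn, iter_zero]
  | succ n ih =>
    rw [Gn_succ]
    obtain ⟨a, l, h⟩ := List.exists_cons_of_ne_nil ih
    rw [h]
    cases a <;> simp [G]

theorem LF.right {w : List Bool} (h : LF w) : ∃ c, LF (w ++ [c]) := by
  obtain ⟨n, s, t, hst⟩ := h
  obtain ⟨c, r, hc⟩ : ∃ c r, t ++ Gn n = c :: r :=
    List.exists_cons_of_ne_nil (by simp [Gn_ne_nil])
  refine ⟨c, n + 3, ?_⟩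
  refine List.IsInfix.trans ?_ (Gn_twice n)
  refine ⟨s, r, ?_⟩
  conv_rhs => rw [← hst]
  rw [hst]
  calc s ++ (w ++ [c]) ++ r = s ++ w ++ (c :: r) := by simp
    _ = s ++ w ++ (t ++ Gn n) := by rw [hc]
    _ = s ++ w ++ t ++ Gn n := by simp
    _ = Gn n ++ Gn n := by rw [hst]

theorem LF.left {w : List Bool} (h : LF w) : ∃ c, LF (c :: w) := by
  obtain ⟨n, s, t, hst⟩ := h
  have hne : Gn n ++ s ≠ [] := by simp [Gn_ne_nil]
  refine ⟨(Gn n ++ s).getLast hne, n + 3, ?_⟩
  refine List.IsInfix.trans ?_ (Gn_twice n)
  refine ⟨(Gn n ++ s).dropLast, t, ?_⟩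
  calc (Gn n ++ s).dropLast ++ (Gn n ++ s).getLast hne :: w ++ t
      = ((Gn n ++ s).dropLast ++ [(Gn n ++ s).getLast hne]) ++ w ++ t := by simp
    _ = Gn n ++ s ++ w ++ t := by rw [List.dropLast_append_getLast]
    _ = Gn n ++ (s ++ w ++ t) := by simp
    _ = Gn n ++ Gn n := by rw [hst]

/-- `YY` does not occur in an image of `G`. -/
theorem noYY_aux (z α β : List Bool) (h : z.flatMap G = α ++ true :: true :: β) : False := by
  induction z generalizing α with
  | nil => simp at h
  | cons a z ih =>
    cases a with
    | false =>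
      match α, h with
      | [], h => simp [G] at h
      | [a], h =>
        have h2 : z.flatMap G = true :: β := by
          simp only [List.flatMap_cons, G, List.cons_append, List.nil_append, List.cons.injEq,
            true_and] at h
          exact h.2
        match z, h2 with
        | [], h2 => simp at h2
        | a :: z, h2 => cases a <;> simp [G] at h2
      | a :: b :: α, h =>
        have h2 : z.flatMap G = α ++ true :: true :: β := by
          simp only [List.flatMap_cons, G, List.cons_append, List.nil_append, List.cons.injEq] at h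
          exact h.2.2
        exact ih α h2
    | true =>
      match α, h with
      | [], h => simp [G] at h
      | a :: α, h =>
        have h2 : z.flatMap G = α ++ true :: true :: β := by
          simp only [List.flatMap_cons, G, List.cons_append, List.nil_append, List.cons.injEq] at h
          exact h.2
        exact ih α h2

theorem noYY : ¬ LF [true, true] := by
  rintro ⟨n, s, t, h⟩
  cases n with
  | zero =>
    have := congrArg List.length h
    simp [Gn, iter_zero] at this
    omega
  | succ n =>
    rw [Gn_succ] at h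
    exact noYY_aux (Gn n) s t (by rw [← h]; simp)

/-- Recognizability at the beginning of a word. -/
theorem recog_pre (w z β : List Bool) (h : z.flatMap G = w.flatMap G ++ false :: β) :
    ∃ z2, z = w ++ z2 := by
  induction w generalizing z with
  | nil => exact ⟨z, rfl⟩
  | cons a w ih =>
    match z, h with
    | [], h => cases a <;> simp [G] at h
    | b :: z, h =>
      cases a <;> cases b
      · have h2 : z.flatMap G = w.flatMap G ++ false :: β := by simpa [G] using h
        obtain ⟨z2, rfl⟩ := ih z h2
        exact ⟨z2, rfl⟩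
      · exfalso
        have h2 : z.flatMap G = true :: (w.flatMap G ++ false :: β) := by simpa [G] using h
        match z, h2 with
        | [], h2 => simp at h2
        | a :: z, h2 => cases a <;> simp [G] at h2
      · exfalso
        have h2 : true :: z.flatMap G = w.flatMap G ++ false :: β := by simpa [G] using h
        match w, h2 with
        | [], h2 => simp at h2
        | a :: w, h2 => cases a <;> simp [G] at h2
      · have h2 : z.flatMap G = w.flatMap G ++ false :: β := by simpa [G] using h
        obtain ⟨z2, rfl⟩ := ih z h2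
        exact ⟨z2, rfl⟩

/-- Recognizability of the Fibonacci morphism. -/
theorem recog (w z α β : List Bool) (h : z.flatMap G = α ++ w.flatMap G ++ false :: β) :
    w <:+: z := by
  induction z generalizing α with
  | nil => simp at h
  | cons a z ih =>
    cases a with
    | false =>
      match α, h with
      | [], h =>
        obtain ⟨z2, hz⟩ := recog_pre w (false :: z) β (by simpa using h)
        exact ⟨[], z2, by simpa using hz.symm⟩
      | [a], h =>
        exfalso
        have h2 : true :: z.flatMap G = w.flatMap G ++ false :: β := by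
          simp only [List.flatMap_cons, G, List.cons_append, List.nil_append, List.cons.injEq] at h
          exact h.2
        match w, h2 with
        | [], h2 => simp at h2
        | a :: w, h2 => cases a <;> simp [G] at h2
      | a :: b :: α, h =>
        have h2 : z.flatMap G = α ++ w.flatMap G ++ false :: β := by
          simp only [List.flatMap_cons, G, List.cons_append, List.nil_append, List.cons.injEq] at h
          exact h.2.2
        exact (ih α h2).trans (List.infix_cons (List.infix_rfl))
    | true =>
      match α, h with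
      | [], h =>
        obtain ⟨z2, hz⟩ := recog_pre w (true :: z) β (by simpa using h)
        exact ⟨[], z2, by simpa using hz.symm⟩
      | a :: α, h =>
        have h2 : z.flatMap G = α ++ w.flatMap G ++ false :: β := by
          simp only [List.flatMap_cons, G, List.cons_append, List.nil_append, List.cons.injEq] at h
          exact h.2
        exact (ih α h2).trans (List.infix_cons (List.infix_rfl))

theorem LF_desub {w : List Bool} (h : LF (w.flatMap G ++ [false])) : LF w := by
  obtain ⟨n, s, t, hst⟩ := h
  cases n with
  | zero =>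
    have hl := congrArg List.length hst
    simp [Gn, iter_zero] at hl
    match w, hl with
    | [], _ => exact ⟨0, ⟨[], [false], rfl⟩⟩
    | a :: w, hl => cases a <;> simp [G] at hl <;> omega
  | succ n =>
    rw [Gn_succ] at hst
    exact ⟨n, recog w (Gn n) s t (by rw [← hst]; simp)⟩

theorem noXXX : ¬ LF [false, false, false] := by
  intro h
  have : LF ([true, true].flatMap G ++ [false]) := h
  exact noYY (LF_desub this)

/-- The numbers of letters `X` and `Y`. -/
def vec (w : List Bool) : ℕ × ℕ := (w.count false, w.count true)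

/-- The Fibonacci vectors. -/
def V (n : ℕ) : ℕ × ℕ := (Nat.fib (n + 1), Nat.fib n)

theorem count_G (w : List Bool) :
    (w.flatMap G).count false = w.count false + w.count true ∧
      (w.flatMap G).count true = w.count false := by
  induction w with
  | nil => simp
  | cons a w ih =>
    obtain ⟨h1, h2⟩ := ih
    rw [List.flatMap_cons, List.count_append, List.count_append, h1, h2]
    cases a
    · rw [show (G false).count false = 1 from rfl, show (G false).count true = 1 from rfl,
        List.count_cons_self, List.count_cons_of_ne (by decide)]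
      omega
    · rw [show (G true).count false = 1 from rfl, show (G true).count true = 0 from rfl,
        List.count_cons_self, List.count_cons_of_ne (by decide)]
      omega

/-- A word without `YY` which is empty or starts with `X` is an image of `G`. -/
theorem exists_G (w : List Bool) (h : ¬ ([true, true] <:+: w)) (h0 : ∀ t, w ≠ true :: t) :
    ∃ w' : List Bool, w = w'.flatMap G := by
  induction hn : w.length using Nat.strong_induction_on generalizing w with
  | _ n ih =>
    match w, h, h0, hn with
    | [], _, _, _ => exact ⟨[], rfl⟩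
    | true :: t, _, h0, _ => exact absurd rfl (h0 t)
    | [false], _, _, _ => exact ⟨[true], rfl⟩
    | false :: true :: t, h, _, hn =>
      obtain ⟨t', ht⟩ := ih t.length (by simp at hn; omega) t
        (fun hh => h (hh.trans ⟨[false, true], [], by simp⟩))
        (fun r hr => h ⟨[false], r, by simp [hr]⟩) rfl
      exact ⟨false :: t', by simp [G, ← ht]⟩
    | false :: false :: t, h, _, hn =>
      obtain ⟨t', ht⟩ := ih (t.length + 1) (by simp at hn; omega) (false :: t)
        (fun hh => h (hh.trans ⟨[false], [], by simp⟩)) (fun r hr => by simp at hr) (by simp)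
      exact ⟨true :: t', by simp [G, ← ht]⟩

theorem LF.noYY' {w : List Bool} (h : LF w) : ¬ ([true, true] <:+: w) :=
  fun hh => noYY (h.mono hh)

/-- One step of the descent for squares. -/
theorem sq_step (w : List Bool) (hw : w ≠ []) (h0 : ∀ t, w ≠ true :: t)
    (h : LF (w ++ w ++ [false]))
    (ih : ∀ z : List Bool, z.length < w.length → z ≠ [] → LF (z ++ z) → ∃ n, vec z = V n) :
    ∃ n, vec w = V n := by
  have hLw : LF w := h.mono ⟨[], w ++ [false], by simp⟩
  obtain ⟨z, hz⟩ := exists_G w hLw.noYY' h0
  have hzz : LF (z ++ z) := by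
    apply LF_desub
    rw [List.flatMap_append, ← hz]
    exact h
  have hzne : z ≠ [] := by
    rintro rfl
    exact hw hz
  obtain ⟨c1, c2⟩ := count_G z
  rw [← hz] at c1 c2
  have hlen : w.length = w.count false + w.count true := by
    rw [← List.count_false_add_count_true w]
  have hlenz : z.length = z.count false + z.count true := by
    rw [← List.count_false_add_count_true z]
  by_cases hc : z.count false = 0
  · -- `w` is a power of `X`
    have hz1 : z.length = 1 := by
      by_contra hne
      have h2 : 2 ≤ z.length := by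
        have : 0 < z.length := List.length_pos_iff.mpr hzne
        omega
      match z, hc, h2 with
      | a :: b :: t, hc, h2 =>
        have ha : a = true := by
          cases a
          · simp at hc
          · rfl
        have hb : b = true := by
          cases b
          · simp [ha] at hc
          · rfl
        exact noYY (hzz.mono ⟨[], t ++ (a :: b :: t), by simp [ha, hb]⟩)
    refine ⟨0, ?_⟩
    unfold vec V
    simp
    omega
  · obtain ⟨n, hn⟩ := ih z (by omega) hzne hzz
    refine ⟨n + 1, ?_⟩
    unfold vec V at hn ⊢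
    simp only [Prod.mk.injEq] at hn ⊢
    rw [c1, c2, hn.1, hn.2, Nat.fib_add_two (n := n)]
    exact ⟨by omega, rfl⟩

theorem LF.left_Y {w : List Bool} (h : LF (true :: w)) : LF (false :: true :: w) := by
  obtain ⟨c, hc⟩ := h.left
  cases c
  · exact hc
  · exact absurd (hc.mono ⟨[], w, by simp⟩) noYY

theorem LF.right_Y {w : List Bool} (h : LF (w ++ [true])) : LF (w ++ [true] ++ [false]) := by
  obtain ⟨c, hc⟩ := h.right
  cases c
  · exact hc
  · exact absurd (hc.mono ⟨w, [], by simp⟩) noYY

theorem noYXYXY : ¬ LF [true, false, true, false, true] := by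
  intro h
  have h1 := h.left_Y
  have h2 : LF ([false, true, false, true, false] ++ [true]) := h1
  have h3 := h2.right_Y
  exact noXXX (LF_desub (w := [false, false, false]) h3)

/-- If `w` starts with `X`, ends with `X`, and `YwwY` is in the language, then `w = X` or
`w = XYX`. -/
theorem sq_max (w : List Bool) (hne : w ≠ []) (h : LF (true :: (w ++ w ++ [true]))) :
    w = [false] ∨ w = [false, true, false] := by
  -- `w` starts with `X`
  have h1 : ∃ t, w = false :: t := by
    match w, hne, h with
    | true :: t, _, h => exact absurd (h.mono ⟨[], t ++ (true :: t) ++ [true], by simp⟩) noYY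
    | false :: t, _, _ => exact ⟨t, rfl⟩
  obtain ⟨t, rfl⟩ := h1
  rcases List.eq_nil_or_concat t with rfl | ⟨w1, c, rfl⟩
  · exact Or.inl rfl
  have hc : c = false := by
    cases c
    · rfl
    · exact absurd (h.mono ⟨true :: (false :: (w1 ++ [true]) ++ (false :: w1)), [], by simp⟩) noYY
  subst hc
  -- now the word is `Y X w1 X X w1 X Y`
  have h' : LF (true :: false :: (w1 ++ false :: false :: (w1 ++ [false, true]))) :=
    h.mono ⟨[], [], by simp⟩
  match w1, h' with
  | [], h' => exact absurd (h'.mono ⟨[true], [false, true], by simp⟩) noXXX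
  | false :: w2, h' =>
    exact absurd (h'.mono ⟨true :: false :: false :: w2, w2 ++ [false, true], by simp⟩) noXXX
  | true :: w2, h' =>
    rcases List.eq_nil_or_concat w2 with rfl | ⟨w3, c, rfl⟩
    · exact Or.inr rfl
    have hc : c = true := by
      cases c
      · exact absurd (h'.mono ⟨true :: false :: true :: w3,
          true :: (w3 ++ [false]) ++ [false, true], by simp⟩) noXXX
      · rfl
    subst hc
    exfalso
    -- now `Y X Y w3 Y X X Y w3 Y X Y`
    match w3, h' with
    | [], h' =>
      exact noYY (h'.mono ⟨[true, false], false :: false :: ([true, true] ++ [false, true]),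
        by simp⟩)
    | true :: w4, h' =>
      exact noYY (h'.mono ⟨[true, false], w4 ++ [true] ++ false :: false :: (true :: true ::
        (w4 ++ [true]) ++ [false, true]), by simp⟩)
    | false :: w4, h' =>
      -- the letter before the second `Y` is `X`
      obtain ⟨w5, hw5⟩ : ∃ w5, false :: w4 = w5 ++ [false] := by
        rcases List.eq_nil_or_concat w4 with rfl | ⟨w6, c, rfl⟩
        · exact ⟨[], rfl⟩
        · cases c
          · exact ⟨false :: w6, by simp⟩
          · exact absurd (h'.mono ⟨true :: false :: true :: false :: w6,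
              false :: false :: (true :: false :: (w6 ++ [true]) ++ [true] ++ [false, true]),
              by simp⟩) noYY
      rw [hw5] at h'
      have hLw5 : LF w5 := h'.mono ⟨[true, false, true], [false] ++ [true] ++ false :: false ::
        (true :: (w5 ++ [false] ++ [true]) ++ [false, true]), by simp⟩
      obtain ⟨z, hz⟩ := exists_G w5 hLw5.noYY' (by
        rintro r rfl
        simp at hw5)
      have e1 : LF (false :: true :: false :: (true :: (w5 ++ [false] ++ [true]) ++
          false :: false :: (true :: (w5 ++ [false] ++ [true]) ++ [false, true]))) := by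
        simpa using h'.left_Y
      have e2 : LF ((false :: true :: false :: (true :: (w5 ++ [false] ++ [true]) ++
          false :: false :: (true :: (w5 ++ [false] ++ [true]) ++ [false]))) ++ [true]) := by
        refine e1.mono ⟨[], [], by simp⟩
      have e3 := e2.right_Y
      have e4 : LF (false :: false :: (z ++ false :: true :: false :: (z ++ [false, false]))) := by
        apply LF_desub
        refine e3.mono ⟨[], [], ?_⟩
        simp [G, ← hz]
      match z, e4 with
      | [], e4 => exact noXXX (e4.mono ⟨[], [true, false, false, false], by simp⟩)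
      | false :: z', e4 => exact noXXX (e4.mono ⟨[], z' ++ false :: true :: false ::
          (false :: z' ++ [false, false]), by simp⟩)
      | true :: z', e4 =>
        rcases List.eq_nil_or_concat z' with rfl | ⟨z3, c, rfl⟩
        · exact noYXYXY (e4.mono ⟨[false, false], [false, false], by simp⟩)
        · cases c
          · exact noXXX (e4.mono ⟨false :: false :: ((true :: (z3 ++ [false])) ++
              false :: true :: false :: true :: z3), [], by simp⟩)
          · exact noYXYXY (e4.mono ⟨false :: false :: true :: z3, z3 ++ [true] ++ [false, false],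
              by simp⟩)

/-- **Squares in the Fibonacci language.** The number of letters of the root of a square in the
Fibonacci language is a Fibonacci vector. -/
theorem sq (w : List Bool) (hw : w ≠ []) (h : LF (w ++ w)) : ∃ n, vec w = V n := by
  induction hn : w.length using Nat.strong_induction_on generalizing w with
  | _ n ih =>
    subst hn
    have key : ∀ w' : List Bool, w' ≠ [] → w'.length = w.length → vec w' = vec w →
        (∀ t, w' ≠ true :: t) → LF (w' ++ w' ++ [false]) → ∃ n, vec w = V n := by
      intro w' h1 h2 h3 h4 h5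
      rw [← h3]
      exact sq_step w' h1 h4 h5 (fun z hz hz1 hz2 => ih z.length (by omega) z hz1 hz2 rfl)
    -- reduction to words starting with `X`
    have main : ∀ w' : List Bool, w' ≠ [] → w'.length = w.length → vec w' = vec w →
        (∀ t, w' ≠ true :: t) → LF (w' ++ w') → ∃ n, vec w = V n := by
      intro w' h1 h2 h3 h4 h5
      obtain ⟨c, hc⟩ := h5.right
      cases c
      · exact key w' h1 h2 h3 h4 hc
      · obtain ⟨d, hd⟩ := hc.left
        cases d
        · -- preceded by `X`; `w'` ends with `X`
          rcases List.eq_nil_or_concat w' with rfl | ⟨w1, c, rfl⟩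
          · exact absurd rfl h1
          have hcf : c = false := by
            cases c
            · rfl
            · exact absurd (hc.mono ⟨w1 ++ [true] ++ w1, [], by simp⟩) noYY
          subst hcf
          refine key (false :: w1) (by simp) (by simpa using h2) ?_ (by simp) ?_
          · rw [← h3]
            unfold vec
            simp [List.count_append, List.count_cons]
          · exact hd.mono ⟨[], [true], by simp⟩
        · rcases sq_max w' h1 hd with rfl | rfl
          · exact ⟨0, by rw [← h3]; decide⟩
          · exact ⟨2, by rw [← h3]; decide⟩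
    match w, hw, h, main with
    | false :: t, hw, h, main => exact main _ hw rfl rfl (by simp) h
    | true :: t, hw, h, main =>
      -- shift to the left
      have h2 : LF (false :: true :: (t ++ true :: t)) := LF.left_Y h
      rcases List.eq_nil_or_concat t with rfl | ⟨w1, c, rfl⟩
      · exact absurd (h.mono ⟨[], [], by simp⟩) noYY
      have hcf : c = false := by
        cases c
        · rfl
        · exact absurd (h.mono ⟨true :: w1, w1 ++ [true], by simp⟩) noYY
      subst hcf
      refine main (false :: true :: w1) (by simp) (by simp) ?_ (by simp) ?_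
      · unfold vec
        simp [List.count_append, List.count_cons]
      · exact h2.mono ⟨[], [false], by simp⟩

/-! ## The ternary word

The letters `a`, `b`, `c` are `0`, `1`, `2`. -/

/-- `X ↦ aca`, `Y ↦ cbc`. -/
def sg : Bool → List (Fin 3)
  | false => [0, 2, 0]
  | true => [2, 1, 2]

/-- `a ↦ XY`, `b ↦ Y`, `c ↦ X`. -/
def ta : Fin 3 → List Bool
  | 0 => [false, true]
  | 1 => [true]
  | 2 => [false]

/-- The morphism `a ↦ acacbc`, `b ↦ cbc`, `c ↦ aca`. -/
def psi : Fin 3 → List (Fin 3) := ![[0, 2, 0, 2, 1, 2], [2, 1, 2], [0, 2, 0]]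

theorem psi_eq (e : Fin 3) : psi e = (ta e).flatMap sg := by
  fin_cases e <;> rfl

theorem ta_psi (w : List (Fin 3)) : (w.flatMap psi).flatMap ta = iter G 3 (w.flatMap ta) := by
  induction w with
  | nil => rfl
  | cons e w ih =>
    rw [List.flatMap_cons, List.flatMap_append, ih, List.flatMap_cons, iter_append]
    congr 1
    fin_cases e <;> rfl

/-- The words `ψ^n(a)`. -/
def Pn (n : ℕ) : List (Fin 3) := iter psi n [0]

theorem Pn_succ (n : ℕ) : Pn (n + 1) = (Pn n).flatMap psi := iter_succ _ _ _

theorem ta_Pn (n : ℕ) : (Pn n).flatMap ta = Gn (3 * n + 1) := by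
  induction n with
  | zero => rfl
  | succ n ih =>
    rw [Pn_succ, ta_psi, ih]
    unfold Gn
    rw [← iter_add]
    congr 1
    ring

theorem flatMap_psi (w : List (Fin 3)) : w.flatMap psi = (w.flatMap ta).flatMap sg := by
  rw [List.flatMap_assoc]
  congr 1
  funext e
  exact psi_eq e

theorem Pn_succ' (n : ℕ) : Pn (n + 1) = (Gn (3 * n + 1)).flatMap sg := by
  rw [Pn_succ, flatMap_psi, ta_Pn]

theorem Pn_isPrefix (n : ℕ) : Pn n <+: Pn (n + 1) := by
  have : Pn (n + 1) = iter psi n ([0] ++ [2, 0, 2, 1, 2]) := by
    unfold Pn
    rw [iter_succ']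
    rfl
  rw [this, iter_append]
  exact List.prefix_append _ _

theorem Pn_mono {m n : ℕ} (h : m ≤ n) : Pn m <+: Pn n := by
  induction h with
  | refl => exact List.prefix_rfl
  | step _ ih => exact ih.trans (Pn_isPrefix _)

theorem psi_length (e : Fin 3) : 3 ≤ (psi e).length := by
  fin_cases e <;> decide

theorem length_flatMap_psi (w : List (Fin 3)) : 3 * w.length ≤ (w.flatMap psi).length := by
  induction w with
  | nil => simp
  | cons e w ih =>
    rw [List.flatMap_cons, List.length_append, List.length_cons]
    have := psi_length e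
    omega

theorem Pn_length (n : ℕ) : n + 1 ≤ (Pn n).length := by
  induction n with
  | zero => simp [Pn, iter_zero]
  | succ n ih =>
    rw [Pn_succ]
    have := length_flatMap_psi (Pn n)
    omega

/-- The infinite word fixed by `ψ` and starting with `a`. -/
def U (i : ℕ) : Fin 3 := (Pn i).getD i 0

theorem U_eq {n i : ℕ} (h : i < (Pn n).length) : U i = (Pn n)[i] := by
  unfold U
  have hi : i < (Pn i).length := by
    have := Pn_length i
    omega
  rw [List.getD_eq_getElem _ _ hi]
  rcases Nat.le_total i n with hin | hin
  · exact List.IsPrefix.getElem (Pn_mono hin) hi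
  · exact (List.IsPrefix.getElem (Pn_mono hin) h).symm

theorem pre_length {A : Type} (u : ℕ → A) (n : ℕ) : (pre u n).length = n := by simp [pre]

theorem pre_Pn (n : ℕ) : pre U (Pn n).length = Pn n := by
  apply List.ext_getElem
  · rw [pre_length]
  · intro i h1 h2
    rw [U_eq h2 |>.symm]
    simp [pre]

theorem pre_add {A : Type} (u : ℕ → A) (m k : ℕ) :
    pre u (m + k) = pre u m ++ (List.range k).map (fun i => u (m + i)) := by
  unfold pre
  rw [List.range_add, List.map_append, List.map_map]
  rfl

theorem pre_isPrefix {A : Type} (u : ℕ → A) {m n : ℕ} (h : m ≤ n) : pre u m <+: pre u n := by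
  obtain ⟨k, rfl⟩ := Nat.exists_eq_add_of_le h
  rw [pre_add]
  exact List.prefix_append _ _

theorem pre_of_isPrefix {A : Type} (u : ℕ → A) {n : ℕ} {w : List A} (h : w <+: pre u n) :
    w = pre u w.length := by
  have hl := h.length_le
  rw [pre_length] at hl
  have h2 := pre_isPrefix u hl
  exact List.prefix_of_prefix_length_le h h2 (by rw [pre_length]) |>.eq_of_length
    (by rw [pre_length])

theorem U_fixed : IsFixedPoint psi U := by
  intro n
  have h1 : pre U n <+: Pn n := by
    rw [← pre_Pn n]
    exact pre_isPrefix U (by have := Pn_length n; omega)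
  obtain ⟨t, ht⟩ := h1
  have h2 : (pre U n).flatMap psi <+: pre U (Pn (n + 1)).length := by
    rw [pre_Pn, Pn_succ, ← ht, List.flatMap_append]
    exact List.prefix_append _ _
  exact pre_of_isPrefix U h2

theorem mem_language {w : List (Fin 3)} : w ∈ Language U ↔ ∃ n, w <:+: Pn n := by
  constructor
  · rintro ⟨n, hn⟩
    refine ⟨n, hn.trans ?_⟩
    rw [← pre_Pn n]
    exact (pre_isPrefix U (by have := Pn_length n; omega)).isInfix
  · rintro ⟨n, hn⟩
    exact ⟨_, by rw [pre_Pn n]; exact hn⟩

theorem psi_primitive : Primitive psi := by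
  refine ⟨2, by norm_num, ?_⟩
  decide

/-! ## Infinitely many palindromes -/

/-- The central words. -/
def Z : ℕ → List Bool
  | 0 => []
  | n + 1 => (Z n).flatMap G ++ [false]

theorem Z_prefix (n : ℕ) : Gn (n + 1) = Z n ++ [false, true] ∨ Gn (n + 1) = Z n ++ [true, false] := by
  induction n with
  | zero => exact Or.inl rfl
  | succ n ih =>
    rw [Gn_succ]
    rcases ih with h | h
    · right
      rw [h]
      simp [Z, G]
    · left
      rw [h]
      simp [Z, G]

theorem reverse_G (w : List Bool) : false :: (w.flatMap G).reverse = w.reverse.flatMap G ++ [false] := by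
  induction w with
  | nil => rfl
  | cons a w ih =>
    rw [List.flatMap_cons, List.reverse_append, ← List.cons_append, ih, List.reverse_cons,
      List.flatMap_append]
    cases a <;> simp [G]

theorem Z_pal (n : ℕ) : (Z n).reverse = Z n := by
  induction n with
  | zero => rfl
  | succ n ih =>
    have h := reverse_G (Z n)
    rw [ih] at h
    simpa [Z] using h

theorem Z_length (n : ℕ) : n ≤ (Z n).length := by
  induction n with
  | zero => simp
  | succ n ih =>
    have := count_G (Z n)
    have h2 := List.count_false_add_count_true (l := Z n)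
    have h3 := List.count_false_add_count_true (l := (Z n).flatMap G)
    simp only [Z, List.length_append, List.length_cons, List.length_nil]
    omega

theorem reverse_sg (w : List Bool) : (w.flatMap sg).reverse = w.reverse.flatMap sg := by
  induction w with
  | nil => rfl
  | cons a w ih =>
    rw [List.flatMap_cons, List.reverse_append, ih, List.reverse_cons, List.flatMap_append]
    cases a <;> simp [sg]

theorem length_sg (w : List Bool) : (w.flatMap sg).length = 3 * w.length := by
  induction w with
  | nil => rfl
  | cons a w ih =>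
    rw [List.flatMap_cons, List.length_append, ih, List.length_cons]
    cases a <;> simp [sg] <;> ring

theorem Gn_isPrefix (n : ℕ) : Gn n <+: Gn (n + 1) := by
  have : Gn (n + 1) = iter G n ([false] ++ [true]) := by
    unfold Gn
    rw [iter_succ']
    rfl
  rw [this, iter_append]
  exact List.prefix_append _ _

theorem Gn_mono {m n : ℕ} (h : m ≤ n) : Gn m <+: Gn n := by
  induction h with
  | refl => exact List.prefix_rfl
  | step _ ih => exact ih.trans (Gn_isPrefix _)

theorem mem_language_sg {w : List Bool} (h : LF w) : w.flatMap sg ∈ Language U := by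
  obtain ⟨n, hn⟩ := h
  rw [mem_language]
  refine ⟨n + 1, ?_⟩
  rw [Pn_succ']
  exact flatMap_isInfix sg (hn.trans (Gn_mono (by omega)).isInfix)

theorem U_palindromes : {w ∈ Language U | IsPalindrome w}.Infinite := by
  have hinj : ∀ n : ℕ, ∃ w ∈ {w ∈ Language U | IsPalindrome w}, n ≤ w.length := by
    intro n
    refine ⟨(Z n).flatMap sg, ⟨?_, ?_⟩, ?_⟩
    · apply mem_language_sg
      refine ⟨n + 1, ?_⟩
      rcases Z_prefix n with h | h <;> rw [h] <;> exact ⟨[], _, rfl⟩
    · unfold IsPalindrome
      rw [reverse_sg, Z_pal]
    · rw [length_sg]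
      have := Z_length n
      omega
  intro hfin
  obtain ⟨M, hM⟩ := (hfin.image List.length).bddAbove
  obtain ⟨w, hw, hl⟩ := hinj (M + 1)
  have := hM (Set.mem_image_of_mem _ hw)
  omega

/-! ## Number of letters of squares in the language of the ternary word -/

theorem even_aux (z : List Bool) (α β : List (Fin 3)) (h : z.flatMap sg = α ++ 1 :: β) :
    Even (α.count 0) := by
  induction z generalizing α with
  | nil => simp at h
  | cons x z ih =>
    cases x with
    | false =>
      match α, h with
      | [], h => simp [sg] at h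
      | [a], h => simp [sg] at h
      | [a, b], h => simp [sg] at h
      | a :: b :: c :: α, h =>
        simp only [List.flatMap_cons, sg, List.cons_append, List.nil_append, List.cons.injEq] at h
        obtain ⟨rfl, rfl, rfl, h⟩ := h
        have := ih α h
        simp only [List.count_cons]
        have e1 : ((2 : Fin 3) == 0) = false := by decide
        have e2 : ((0 : Fin 3) == 0) = true := by decide
        rw [e1, e2]
        obtain ⟨r, hr⟩ := this
        exact ⟨r + 1, by simp; omega⟩
    | true =>
      match α, h with
      | [], h => simp [sg] at h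
      | [a], h =>
        simp only [List.flatMap_cons, sg, List.cons_append, List.nil_append, List.cons.injEq] at h
        obtain ⟨rfl, _⟩ := h
        decide
      | [a, b], h => simp [sg] at h
      | a :: b :: c :: α, h =>
        simp only [List.flatMap_cons, sg, List.cons_append, List.nil_append, List.cons.injEq] at h
        obtain ⟨rfl, rfl, rfl, h⟩ := h
        have := ih α h
        simp only [List.count_cons]
        have e1 : ((2 : Fin 3) == 0) = false := by decide
        have e2 : ((1 : Fin 3) == 0) = false := by decide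
        rw [e1, e2]
        simpa using this

theorem language_sg {w : List (Fin 3)} (h : w ∈ Language U) : ∃ z : List Bool, w <:+: z.flatMap sg := by
  rw [mem_language] at h
  obtain ⟨n, hn⟩ := h
  exact ⟨Gn (3 * n + 1), by rw [← Pn_succ']; exact hn.trans (Pn_isPrefix n).isInfix⟩

theorem even_square {w : List (Fin 3)} (h : w ++ w ∈ Language U) (h1 : 1 ∈ w) :
    Even (w.count 0) := by
  obtain ⟨z, s, t, hz⟩ := language_sg h
  obtain ⟨w1, w2, rfl⟩ := List.append_of_mem h1
  have e1 := even_aux z (s ++ w1) (w2 ++ (w1 ++ 1 :: w2) ++ t) (by rw [← hz]; simp)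
  have e2 := even_aux z (s ++ (w1 ++ 1 :: w2) ++ w1) (w2 ++ t) (by rw [← hz]; simp)
  simp only [List.count_append] at e1 e2 ⊢
  obtain ⟨r1, hr1⟩ := e1
  obtain ⟨r2, hr2⟩ := e2
  exact ⟨r2 - r1, by omega⟩

theorem LF_ta {w : List (Fin 3)} (h : w ∈ Language U) : LF (w.flatMap ta) := by
  rw [mem_language] at h
  obtain ⟨n, hn⟩ := h
  exact ⟨3 * n + 1, by rw [← ta_Pn]; exact flatMap_isInfix ta hn⟩

theorem count_ta (w : List (Fin 3)) : (w.flatMap ta).count false = w.count 0 + w.count 2 ∧
    (w.flatMap ta).count true = w.count 0 + w.count 1 := by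
  induction w with
  | nil => simp
  | cons e w ih =>
    obtain ⟨h1, h2⟩ := ih
    rw [List.flatMap_cons, List.count_append, List.count_append, h1, h2]
    simp only [List.count_cons]
    fin_cases e <;> simp [ta] <;> omega

/-! ## The images under a morphism of class `P` -/

theorem fixed_language {A : Type} {φ : A → List A} {v : ℕ → A} (h : IsFixedPoint φ v)
    {w : List A} (hw : w ∈ Language v) (k : ℕ) : iter φ k w ∈ Language v := by
  induction k with
  | zero => exact hw
  | succ k ih =>
    rw [iter_succ]
    obtain ⟨n, hn⟩ := ih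
    exact ⟨_, by rw [← h n]; exact flatMap_isInfix φ hn⟩

theorem reverse_classP {A : Type} {φ : A → List A} {p : List A} {q : A → List A}
    (hp : IsPalindrome p) (hq : ∀ a, IsPalindrome (q a)) (h : ∀ a, φ a = p ++ q a) (w : List A) :
    p ++ (w.flatMap φ).reverse = w.reverse.flatMap φ ++ p := by
  induction w with
  | nil => simp
  | cons a w ih =>
    rw [List.flatMap_cons, List.reverse_append, ← List.append_assoc, ih, List.reverse_cons,
      List.flatMap_append, List.append_assoc, List.append_assoc]
    congr 1
    have h1 := hp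
    have h2 := hq a
    unfold IsPalindrome at h1 h2
    simp [h a, h1, h2]

theorem pal_classP {A : Type} {φ : A → List A} {p : List A} {q : A → List A}
    (hp : IsPalindrome p) (hq : ∀ a, IsPalindrome (q a)) (h : ∀ a, φ a = p ++ q a) {w : List A}
    (hw : IsPalindrome w) : IsPalindrome (w.flatMap φ ++ p) := by
  have h1 := reverse_classP hp hq h w
  unfold IsPalindrome at hp hw ⊢
  rw [List.reverse_append, hp, h1, hw]

theorem pal_iter {A : Type} {φ : A → List A} (h : ClassP φ) (k : ℕ) :
    ∃ r : List A, IsPalindrome r ∧ ∀ w, IsPalindrome w → IsPalindrome (iter φ k w ++ r) := by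
  obtain ⟨_, p, q, hp, hq, hpq⟩ := h
  induction k with
  | zero =>
    refine ⟨[], rfl, fun w hw => ?_⟩
    rw [iter_zero, List.append_nil]
    exact hw
  | succ k ih =>
    obtain ⟨r, hr, hk⟩ := ih
    refine ⟨r.flatMap φ ++ p, pal_classP hp hq hpq hr, fun w hw => ?_⟩
    have := pal_classP hp hq hpq (hk w hw)
    rw [List.flatMap_append, ← iter_succ] at this
    rw [← List.append_assoc]
    exact this

theorem pal_parity {A : Type} [DecidableEq A] {w : List A} (h : IsPalindrome w) {a b : A}
    (hab : a ≠ b) : Even (w.count a) ∨ Even (w.count b) := by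
  have h' : w.Palindrome := List.Palindrome.of_reverse_eq h
  induction h' with
  | nil => left; simp
  | singleton x =>
    by_cases hx : x = a
    · right
      subst hx
      simp [List.count_cons, hab]
    · left
      simp [List.count_cons, hx]
  | @cons_concat x l hl ih =>
    have ih' := ih hl.reverse_eq
    simp only [List.count_cons, List.count_append, List.count_nil]
    rcases ih' with ⟨r, hr⟩ | ⟨r, hr⟩
    · left
      exact ⟨r + (if x == a then 1 else 0), by omega⟩
    · right
      exact ⟨r + (if x == b then 1 else 0), by omega⟩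

/-- The arithmetic of the four Fibonacci vectors. -/
theorem fib_solve {a1 a2 b1 b2 c1 c2 n m l k : ℕ}
    (ha : (a1, a2) = V n) (hm : (2 * a1 + c1, 2 * a2 + c2) = V m)
    (hl : (2 * a1 + 3 * c1 + b1, 2 * a2 + 3 * c2 + b2) = V l)
    (hk : (4 * a1 + 4 * c1 + b1, 4 * a2 + 4 * c2 + b2) = V k)
    (hb : 1 ≤ b1 + b2) (hc : 1 ≤ c1 + c2) :
    c1 = Nat.fib n ∧ c2 + Nat.fib n = Nat.fib (n + 1) ∧ b1 + Nat.fib n = Nat.fib (n + 1) ∧
      b2 + Nat.fib (n + 1) = 2 * Nat.fib n := by
  unfold V at ha hm hl hk
  simp only [Prod.mk.injEq] at ha hm hl hk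
  obtain ⟨ha1, ha2⟩ := ha
  obtain ⟨hm1, hm2⟩ := hm
  obtain ⟨hl1, hl2⟩ := hl
  obtain ⟨hk1, hk2⟩ := hk
  have fn := Nat.fib_add_two (n := n)
  have fm := Nat.fib_add_two (n := m)
  have fl := Nat.fib_add_two (n := l)
  have fk := Nat.fib_add_two (n := k)
  have hml : m < l := by
    by_contra hcon
    have := Nat.fib_mono (show l + 2 ≤ m + 2 by omega)
    omega
  have hlk : l < k := by
    by_contra hcon
    have := Nat.fib_mono (show k + 2 ≤ l + 2 by omega)
    omega
  have hl1' : l = m + 1 := by
    by_contra hcon
    have h1 := Nat.fib_mono (show m + 3 ≤ l + 1 by omega)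
    have h2 := Nat.fib_mono (show l + 3 ≤ k + 2 by omega)
    have h3 : Nat.fib (m + 3) = Nat.fib (m + 1) + Nat.fib (m + 2) := Nat.fib_add_two
    have h4 : Nat.fib (l + 3) = Nat.fib (l + 1) + Nat.fib (l + 2) := Nat.fib_add_two
    have h5 : 0 < Nat.fib (m + 1) := Nat.fib_pos.mpr (by omega)
    omega
  subst hl1'
  have hnm : n + 2 ≤ m := by
    by_contra hcon
    have h1 := Nat.fib_mono (show m + 1 ≤ n + 2 by omega)
    have h2 := Nat.fib_mono (show m ≤ m + 1 by omega)
    omega
  have hnm' : m = n + 2 := by
    by_contra hcon
    obtain ⟨j, rfl⟩ : ∃ j, m = j + 3 := ⟨m - 3, by omega⟩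
    have h1 := Nat.fib_mono (show n + 2 ≤ j + 2 by omega)
    have h2 : Nat.fib (j + 2) = Nat.fib j + Nat.fib (j + 1) := Nat.fib_add_two
    have h3 : Nat.fib (j + 3) = Nat.fib (j + 1) + Nat.fib (j + 2) := Nat.fib_add_two
    have h4 : Nat.fib (j + 4) = Nat.fib (j + 2) + Nat.fib (j + 3) := Nat.fib_add_two
    have h5 : Nat.fib (j + 5) = Nat.fib (j + 3) + Nat.fib (j + 4) := Nat.fib_add_two
    have h6 : 0 < Nat.fib (j + 1) := Nat.fib_pos.mpr (by omega)
    have e1 : j + 3 + 1 = j + 4 := rfl
    have e2 : j + 3 + 2 = j + 5 := rfl
    have e3 : j + 3 + 1 + 1 = j + 5 := rfl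
    rw [e1] at hm1 fm hl2
    rw [e3] at hl1
    rw [e2] at fm
    omega
  subst hnm'
  have h3 : Nat.fib (n + 3) = Nat.fib (n + 1) + Nat.fib (n + 2) := Nat.fib_add_two
  have h4 : Nat.fib (n + 4) = Nat.fib (n + 2) + Nat.fib (n + 3) := Nat.fib_add_two
  have e1 : n + 2 + 1 = n + 3 := rfl
  have e2 : n + 2 + 2 = n + 4 := rfl
  have e3 : n + 2 + 1 + 1 = n + 4 := rfl
  rw [e1] at hm1 fm hl2
  rw [e3] at hl1
  refine ⟨?_, ?_, ?_, ?_⟩ <;> omega

theorem fib_not_both_even (n : ℕ) : ¬ (Even (Nat.fib n) ∧ Even (Nat.fib (n + 1))) := by
  induction n with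
  | zero => simp
  | succ n ih =>
    rintro ⟨h1, h2⟩
    rw [Nat.fib_add_two] at h2
    apply ih
    refine ⟨?_, h1⟩
    rw [Nat.even_add] at h2
    exact h2.mpr h1

theorem language_mono {A : Type} {u : ℕ → A} {w z : List A} (hz : z ∈ Language u)
    (h : w <:+: z) : w ∈ Language u := by
  obtain ⟨n, hn⟩ := hz
  exact ⟨n, h.trans hn⟩

/-- The core of the argument. -/
theorem core (Φ : Fin 3 → List (Fin 3)) (r : List (Fin 3))
    (h1 : ∀ w ∈ Language U, w.flatMap Φ ∈ Language U) (h2 : IsPalindrome r)
    (h3 : ∀ e, IsPalindrome (Φ e ++ r)) (h4 : ∀ e, 1 ∈ Φ e) : False := by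
  have m2 : ([0, 2, 0] ++ [0, 2, 0] : List (Fin 3)) ∈ Language U :=
    mem_language_sg (w := [false, false]) ⟨3, [false, true], [true], by decide⟩
  have m1 : ([0] ++ [0] : List (Fin 3)) ∈ Language U :=
    language_mono m2 ⟨[0, 2], [2, 0], by decide⟩
  have m3 : ([0, 2, 0, 2, 1, 2] ++ [0, 2, 0, 2, 1, 2] : List (Fin 3)) ∈ Language U :=
    mem_language_sg (w := [false, true, false, true]) ⟨4, [false, true, false], [false], by decide⟩
  have m4 : ([0, 2, 0, 0, 2, 0, 2, 1, 2] ++ [0, 2, 0, 0, 2, 0, 2, 1, 2] : List (Fin 3)) ∈
      Language U :=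
    mem_language_sg (w := [false, false, true, false, false, true])
      ⟨5, [false, true, false, false, true, false, true], [], by decide⟩
  have key : ∀ w : List (Fin 3), w ≠ [] → w ++ w ∈ Language U →
      (∃ n, vec ((w.flatMap Φ).flatMap ta) = V n) ∧ Even ((w.flatMap Φ).count 0) := by
    intro w hw hww
    have e1 := h1 _ hww
    rw [List.flatMap_append] at e1
    have e2 : 1 ∈ w.flatMap Φ := by
      obtain ⟨a, t, rfl⟩ := List.exists_cons_of_ne_nil hw
      rw [List.flatMap_cons]
      exact List.mem_append_left _ (h4 a)
    refine ⟨?_, even_square e1 e2⟩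
    have e3 := LF_ta e1
    rw [List.flatMap_append] at e3
    refine sq _ ?_ e3
    intro h0
    have h5 := (count_ta (w.flatMap Φ)).2
    rw [h0] at h5
    have h6 : 0 < (w.flatMap Φ).count 1 := List.count_pos_iff.mpr e2
    simp at h5
    omega
  obtain ⟨⟨n, hn⟩, ev0⟩ := key [0] (by simp) m1
  obtain ⟨⟨m, hm⟩, ev2⟩ := key [0, 2, 0] (by simp) m2
  obtain ⟨⟨l, hl⟩, ev1⟩ := key [0, 2, 0, 2, 1, 2] (by simp) m3
  obtain ⟨⟨k, hk⟩, -⟩ := key [0, 2, 0, 0, 2, 0, 2, 1, 2] (by simp) m4
  have t0 := count_ta (Φ 0)
  have t1 := count_ta (Φ 1)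
  have t2 := count_ta (Φ 2)
  have p0 : 0 < (Φ 0).count 1 := List.count_pos_iff.mpr (h4 0)
  have p1 : 0 < (Φ 1).count 1 := List.count_pos_iff.mpr (h4 1)
  have p2 : 0 < (Φ 2).count 1 := List.count_pos_iff.mpr (h4 2)
  simp only [vec, List.flatMap_cons, List.flatMap_nil, List.flatMap_append, List.append_nil,
    List.count_append, t0, t1, t2] at hn hm hl hk ev0 ev1 ev2
  set α0 := (Φ 0).count 0
  set β0 := (Φ 0).count 1
  set γ0 := (Φ 0).count 2
  set α1 := (Φ 1).count 0
  set β1 := (Φ 1).count 1
  set γ1 := (Φ 1).count 2
  set α2 := (Φ 2).count 0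
  set β2 := (Φ 2).count 1
  set γ2 := (Φ 2).count 2
  obtain ⟨f1, f2, f3, f4⟩ := fib_solve (a1 := α0 + γ0) (a2 := α0 + β0) (b1 := α1 + γ1)
    (b2 := α1 + β1) (c1 := α2 + γ2) (c2 := α2 + β2) (n := n) (m := m) (l := l) (k := k)
    hn (by rw [← hm, Prod.mk.injEq]; exact ⟨by ring, by ring⟩)
    (by rw [← hl, Prod.mk.injEq]; exact ⟨by ring, by ring⟩)
    (by rw [← hk, Prod.mk.injEq]; exact ⟨by ring, by ring⟩) (by omega) (by omega)
  have q := pal_parity h2 (a := 1) (b := 2) (by decide)
  have q0 := pal_parity (h3 0) (a := 1) (b := 2) (by decide)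
  have q1 := pal_parity (h3 1) (a := 1) (b := 2) (by decide)
  have q2 := pal_parity (h3 2) (a := 1) (b := 2) (by decide)
  simp only [List.count_append] at q0 q1 q2
  have hf := fib_not_both_even n
  unfold V at hn
  simp only [Prod.mk.injEq] at hn
  obtain ⟨hn1, hn2⟩ := hn
  simp only [Nat.even_iff] at q q0 q1 q2 hf ev0 ev1 ev2
  omega

theorem map_iter {A B : Type} (φ : A → List A) (ψ : B → List B) (ι : A → B)
    (h : ∀ a, (φ a).map ι = ψ (ι a)) (k : ℕ) (w : List A) :
    (iter φ k w).map ι = iter ψ k (w.map ι) := by
  induction k with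
  | zero => rfl
  | succ k ih =>
    rw [iter_succ, iter_succ, ← ih, List.map_flatMap, List.flatMap_map]
    congr 1
    funext a
    exact h a

/-- **The class `P` conjecture of Hof, Knill and Simon is false over a three-letter alphabet.**
The primitive morphism `0 ↦ 020212`, `1 ↦ 212`, `2 ↦ 020` has a fixed point `u` whose language
contains infinitely many palindromes, and no morphism in class `P`, over any alphabet containing
the letters `0, 1, 2`, has a fixed point with the same language as `u`. -/
theorem result :
    ∃ (φ : Fin 3 → List (Fin 3)) (u : ℕ → Fin 3),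
      φ = ![[0, 2, 0, 2, 1, 2], [2, 1, 2], [0, 2, 0]] ∧
      Primitive φ ∧ IsFixedPoint φ u ∧ {w ∈ Language u | IsPalindrome w}.Infinite ∧
      ∀ (B : Type) (ι : Fin 3 → B), Function.Injective ι → ∀ (ψ : B → List B) (v : ℕ → B),
        ClassP ψ → IsFixedPoint ψ v → Language v ≠ (fun w => w.map ι) '' Language u := by
  refine ⟨psi, U, rfl, psi_primitive, U_fixed, U_palindromes, ?_⟩
  intro B ι hι ψ v hP hv hL
  obtain ⟨k, -, hk⟩ := hP.1
  -- every letter of `B` is one of the three letters
  have hsurj : Function.Surjective ι := by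
    intro b
    have h1 : [v 0] ∈ Language v := ⟨1, by simp [pre]⟩
    have h2 := fixed_language hv h1 k
    rw [hL] at h2
    obtain ⟨w, -, hw⟩ := h2
    have h3 := hk (v 0) b
    rw [← hw] at h3
    obtain ⟨a, -, ha⟩ := List.mem_map.mp h3
    exact ⟨a, ha⟩
  obtain ⟨κ, hκ⟩ : ∃ κ : B → Fin 3, ∀ e, κ (ι e) = e :=
    ⟨Function.invFun ι, fun e => Function.leftInverse_invFun hι e⟩
  have hκ2 : ∀ b, ι (κ b) = b := by
    intro b
    obtain ⟨e, rfl⟩ := hsurj b
    rw [hκ]
  obtain ⟨r, hr, hr2⟩ := pal_iter hP k
  refine core (fun e => (iter ψ k [ι e]).map κ) (r.map κ) ?_ ?_ ?_ ?_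
  · intro w hw
    have h1 : w.map ι ∈ Language v := by
      rw [hL]
      exact ⟨w, hw, rfl⟩
    have h2 := fixed_language hv h1 k
    rw [hL] at h2
    obtain ⟨w', hw', hww⟩ := h2
    have h3 : w' = w.flatMap (fun e => (iter ψ k [ι e]).map κ) := by
      have h4 : (w'.map ι).map κ = w' := by
        rw [List.map_map]
        conv_rhs => rw [← List.map_id w']
        congr 1
        funext e
        exact hκ e
      rw [← h4]
      simp only at hww
      rw [hww, iter_eq_flatMap, List.map_flatMap, List.flatMap_map]
    rw [← h3]
    exact hw'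
  · unfold IsPalindrome at hr ⊢
    rw [← List.map_reverse, hr]
  · intro e
    have := hr2 [ι e] (by unfold IsPalindrome; rfl)
    unfold IsPalindrome at this ⊢
    rw [← List.map_append, ← List.map_reverse, this]
  · intro e
    rw [List.mem_map]
    exact ⟨ι 1, hk (ι e) (ι 1), hκ 1⟩

end Pool.Agent.Results.MP_56c58d_co.ClassPFails
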